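import Mathlib

/-!
Nonarchimedean absolute values extend to algebraic extensions, and finitely many extensions
control the coefficients of the minimal polynomials.
-/

set_option autoImplicit false

namespace Pool.Agent.Helper61.Apc

open Polynomial

universe u

lemma abv_natCast_le_one {F : Type*} [Field F] (v : AbsoluteValue F ℝ)
    (hv : ∀ x y, v (x + y) ≤ max (v x) (v y)) (n : ℕ) : v (n : F) ≤ 1 := by
  induction n with
  | zero => rw [Nat.cast_zero, map_zero]; exact zero_le_one
  | succ n ih =>
    rw [Nat.cast_add, Nat.cast_one]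
    exact (hv _ _).trans (max_le ih (by rw [map_one]))

/-- the absolute value of the algebraic closure of a complete nonarchimedean field -/
lemma exists_abv_algebraicClosure (k : Type*) [NontriviallyNormedField k] [CompleteSpace k]
    [IsUltrametricDist k] :
    ∃ w : AbsoluteValue (AlgebraicClosure k) ℝ, (∀ x y, w (x + y) ≤ max (w x) (w y)) ∧
      ∀ a : k, w (algebraMap k (AlgebraicClosure k) a) = ‖a‖ := by
  let _ : NormedField (AlgebraicClosure k) := spectralNorm.normedField k (AlgebraicClosure k)
  refine ⟨{ toFun := fun x => spectralNorm k (AlgebraicClosure k) x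
            map_mul' := fun x y => norm_mul x y
            nonneg' := fun x => norm_nonneg x
            eq_zero' := fun x => by
              show ‖x‖ = 0 ↔ x = 0
              exact norm_eq_zero
            add_le' := fun x y => norm_add_le x y }, ?_, ?_⟩
  · intro x y
    exact isNonarchimedean_spectralNorm x y
  · intro a
    exact spectralNorm_extends a

/-- an algebraically closed extension of a field with a nontrivial nonarchimedean absolute
value -/
lemma exists_algClosed_extension {F : Type u} [Field F] (v : AbsoluteValue F ℝ)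
    (hv : ∀ x y, v (x + y) ≤ max (v x) (v y)) (hnt : ∃ x, 1 < v x) :
    ∃ (Ω : Type u) (_ : Field Ω) (_ : IsAlgClosed Ω) (f : F →+* Ω) (w : AbsoluteValue Ω ℝ),
      (∀ x y, w (x + y) ≤ max (w x) (w y)) ∧ ∀ a, w (f a) = v a := by
  have hnorm : ∀ a : F, ‖((WithAbs.toAbs v a : WithAbs v) : v.Completion)‖ = v a := by
    intro a
    rw [UniformSpace.Completion.norm_coe]
    rfl
  let _ : NontriviallyNormedField v.Completion :=
    { (inferInstance : NormedField v.Completion) with
      non_trivial := by
        obtain ⟨x, hx⟩ := hnt
        refine ⟨((WithAbs.toAbs v x : WithAbs v) : v.Completion), ?_⟩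
        have := hnorm x
        change 1 < ‖((WithAbs.toAbs v x : WithAbs v) : v.Completion)‖
        rw [this]
        exact hx }
  have : IsUltrametricDist v.Completion := by
    apply IsUltrametricDist.isUltrametricDist_of_forall_norm_natCast_le_one
    intro n
    have h1 : ((n : ℕ) : v.Completion) = ((WithAbs.toAbs v (n : F) : WithAbs v) : v.Completion) := by
      have h2 : (WithAbs.toAbs v (n : F) : WithAbs v) = ((n : ℕ) : WithAbs v) := rfl
      rw [h2]
      exact (map_natCast (UniformSpace.Completion.coeRingHom (α := WithAbs v)) n).symm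
    rw [h1]
    change ‖((WithAbs.toAbs v (n : F) : WithAbs v) : v.Completion)‖ ≤ 1
    rw [hnorm]
    exact abv_natCast_le_one v hv n
  obtain ⟨w, hw, hext⟩ := exists_abv_algebraicClosure v.Completion
  refine ⟨AlgebraicClosure v.Completion, inferInstance, inferInstance,
    (algebraMap v.Completion (AlgebraicClosure v.Completion)).comp
      ((UniformSpace.Completion.coeRingHom (α := WithAbs v)).comp
        ((WithAbs.equiv v).symm.toRingHom)), w, hw, ?_⟩
  intro a
  rw [RingHom.comp_apply, hext]
  exact hnorm a

theorem exists_abv_algebraic {F E : Type*} [Field F] [Field E] [Algebra F E]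
    [Algebra.IsAlgebraic F E] (v : AbsoluteValue F ℝ)
    (hv : ∀ x y, v (x + y) ≤ max (v x) (v y)) :
    ∃ w : AbsoluteValue E ℝ, (∀ x y, w (x + y) ≤ max (w x) (w y)) ∧
      ∀ a, w (algebraMap F E a) = v a := by
  classical
  by_cases hnt : ∃ x, 1 < v x
  · obtain ⟨Ω, hΩ, hΩ', f, w, hw, hext⟩ := exists_algClosed_extension v hv hnt
    let _ : Algebra F Ω := f.toAlgebra
    let σ : E →ₐ[F] Ω := IsAlgClosed.lift
    refine ⟨w.comp (f := (σ : E →+* Ω)) (σ : E →+* Ω).injective, ?_, ?_⟩
    · intro x y
      have := hw (σ x) (σ y)
      rw [← map_add] at this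
      exact this
    · intro a
      show w (σ (algebraMap F E a)) = v a
      rw [AlgHom.commutes]
      exact hext a
  · push Not at hnt
    have htriv : ∀ x, x ≠ 0 → v x = 1 := by
      intro x hx
      apply le_antisymm (hnt x)
      have h1 := hnt x⁻¹
      rw [map_inv₀] at h1
      have h2 : 0 < v x := v.pos hx
      rwa [inv_le_one₀ h2] at h1
    refine ⟨AbsoluteValue.trivial, ?_, ?_⟩
    · intro x y
      by_cases hx : x = 0
      · subst hx
        rw [zero_add]
        exact le_max_right _ _
      · refine le_max_of_le_left ?_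
        rw [AbsoluteValue.trivial_apply hx]
        by_cases hxy : x + y = 0
        · rw [hxy, map_zero]; exact zero_le_one
        · rw [AbsoluteValue.trivial_apply hxy]
    · intro a
      by_cases ha : a = 0
      · subst ha
        rw [map_zero, map_zero, map_zero]
      · rw [AbsoluteValue.trivial_apply (by simpa using ha), htriv a ha]

lemma coeff_prod_le {Ω : Type*} [Field Ω] (w : AbsoluteValue Ω ℝ)
    (hw : ∀ x y, w (x + y) ≤ max (w x) (w y)) {B : ℝ} (hB : 1 ≤ B) (s : Multiset Ω)
    (hs : ∀ z ∈ s, w z ≤ B) (j : ℕ) :
    w (((s.map fun z => X - C z).prod).coeff j) ≤ B ^ (Multiset.card s) := by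
  induction s using Multiset.induction generalizing j with
  | empty =>
    simp only [Multiset.map_zero, Multiset.prod_zero, Multiset.card_zero, pow_zero]
    rw [coeff_one]
    split_ifs
    · rw [map_one]
    · rw [map_zero]; exact zero_le_one
  | cons a s ih =>
    have hB0 : (0 : ℝ) ≤ B := le_trans zero_le_one hB
    have ih' := ih (fun z hz => hs z (Multiset.mem_cons_of_mem hz))
    have ha := hs a (Multiset.mem_cons_self a s)
    rw [Multiset.map_cons, Multiset.prod_cons, Multiset.card_cons, sub_mul, coeff_sub, coeff_C_mul,
      sub_eq_add_neg]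
    refine (hw _ _).trans (max_le ?_ ?_)
    · cases j with
      | zero =>
        rw [mul_comm, coeff_mul_X_zero, map_zero]
        positivity
      | succ j =>
        rw [mul_comm, coeff_mul_X]
        refine (ih' j).trans ?_
        exact pow_le_pow_right₀ hB (Nat.le_succ _)
    · rw [AbsoluteValue.map_neg, map_mul, pow_succ, mul_comm]
      exact mul_le_mul (ih' j) ha (w.nonneg _) (by positivity)

theorem exists_extensions {F E : Type*} [Field F] [Field E] [Algebra F E]
    [FiniteDimensional F E] (v : AbsoluteValue F ℝ)
    (hv : ∀ x y, v (x + y) ≤ max (v x) (v y)) :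
    ∃ (m : ℕ) (w : Fin m → AbsoluteValue E ℝ), (∀ i x y, w i (x + y) ≤ max (w i x) (w i y)) ∧
      ∀ B : ℝ, 1 ≤ B → ∀ x : E, (∀ i, w i x ≤ B) →
        ∀ j, v ((minpoly F x).coeff j) ≤ B ^ (minpoly F x).natDegree := by
  classical
  by_cases hnt : ∃ x, 1 < v x
  · obtain ⟨Ω, hΩ, hΩ', f, w, hw, hext⟩ := exists_algClosed_extension v hv hnt
    let _ : Algebra F Ω := f.toAlgebra
    have e := Fintype.equivFin (E →ₐ[F] Ω)
    refine ⟨Fintype.card (E →ₐ[F] Ω), fun i => w.comp (f := ((e.symm i : E →ₐ[F] Ω) : E →+* Ω))
      ((e.symm i : E →ₐ[F] Ω) : E →+* Ω).injective, ?_, ?_⟩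
    · intro i x y
      have := hw ((e.symm i : E →ₐ[F] Ω) x) ((e.symm i : E →ₐ[F] Ω) y)
      rw [← map_add] at this
      exact this
    · intro B hB x hx j
      have hx' : ∀ σ : E →ₐ[F] Ω, w (σ x) ≤ B := by
        intro σ
        have := hx (e σ)
        have h2 : e.symm (e σ) = σ := e.symm_apply_apply σ
        change w ((e.symm (e σ) : E →ₐ[F] Ω) x) ≤ B at this
        rwa [h2] at this
      set p := (minpoly F x).map (algebraMap F Ω) with hp
      have hmonic : p.Monic := (minpoly.monic (Algebra.IsIntegral.isIntegral x)).map _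
      have hsplit : p.Splits := IsAlgClosed.splits p
      have hprod : p = (p.roots.map fun z => X - C z).prod := by
        have := hsplit.eq_prod_roots
        rw [hmonic.leadingCoeff, C_1, one_mul] at this
        exact this
      have hcard : Multiset.card p.roots = (minpoly F x).natDegree := by
        rw [← hsplit.natDegree_eq_card_roots, hp, natDegree_map]
      have hroots : ∀ z ∈ p.roots, w z ≤ B := by
        intro z hz
        have h1 : z ∈ (minpoly F x).rootSet Ω := by
          rw [mem_rootSet]
          refine ⟨minpoly.ne_zero (Algebra.IsIntegral.isIntegral x), ?_⟩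
          have := isRoot_of_mem_roots hz
          rw [IsRoot.def, hp, eval_map_algebraMap] at this
          exact this
        rw [← Algebra.IsAlgebraic.range_eval_eq_rootSet_minpoly Ω x] at h1
        obtain ⟨σ, rfl⟩ := h1
        exact hx' σ
      have h1 := coeff_prod_le w hw hB p.roots hroots j
      rw [← hprod, hcard, hp, coeff_map] at h1
      have h2 : w (algebraMap F Ω ((minpoly F x).coeff j)) = v ((minpoly F x).coeff j) :=
        hext _
      rw [← h2]
      exact h1
  · push Not at hnt
    refine ⟨0, fun i => i.elim0, fun i => i.elim0, ?_⟩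
    intro B hB x _ j
    exact (hnt _).trans (one_le_pow₀ hB)

end Pool.Agent.Helper61.Apc
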