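import Mathlib

/-!
The Gauss norm on a polynomial ring.
-/

set_option autoImplicit false

namespace Pool.Agent.Helper61.Apc

open NNReal MvPolynomial

section

variable {F : Type*} [Field F] (u : Valuation F ℝ≥0) {I : Type*}

/-- the Gauss norm -/
noncomputable def gauss (f : MvPolynomial I F) : ℝ≥0 := f.support.sup (fun m => u (f.coeff m))

variable {u}

lemma gauss_le_iff {f : MvPolynomial I F} {c : ℝ≥0} :
    gauss u f ≤ c ↔ ∀ m, u (f.coeff m) ≤ c := by
  unfold gauss
  rw [Finset.sup_le_iff]
  constructor
  · intro h m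
    by_cases hm : m ∈ f.support
    · exact h m hm
    · rw [MvPolynomial.notMem_support_iff] at hm
      rw [hm, map_zero]
      exact zero_le
  · intro h m _
    exact h m

lemma coeff_le_gauss (f : MvPolynomial I F) (m : I →₀ ℕ) : u (f.coeff m) ≤ gauss u f :=
  gauss_le_iff.1 le_rfl m

lemma exists_coeff_eq_gauss (f : MvPolynomial I F) (hf : f ≠ 0) :
    ∃ m, u (f.coeff m) = gauss u f := by
  have hne : f.support.Nonempty := by
    rwa [Finset.nonempty_iff_ne_empty, ne_eq, MvPolynomial.support_eq_empty]
  obtain ⟨m, _, hm⟩ := Finset.exists_mem_eq_sup _ hne (fun m => u (f.coeff m))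
  exact ⟨m, hm.symm⟩

lemma gauss_C_mul (a : F) (f : MvPolynomial I F) : gauss u (C a * f) = u a * gauss u f := by
  by_cases hf : f = 0
  · subst hf
    simp [gauss]
  apply le_antisymm
  · rw [gauss_le_iff]
    intro m
    rw [coeff_C_mul, map_mul]
    exact mul_le_mul_right (coeff_le_gauss f m) _
  · obtain ⟨m, hm⟩ := exists_coeff_eq_gauss (u := u) f hf
    rw [← hm, ← map_mul, ← coeff_C_mul]
    exact coeff_le_gauss _ m

lemma gauss_C (a : F) : gauss u (C a : MvPolynomial I F) = u a := by
  classical
  apply le_antisymm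
  · rw [gauss_le_iff]
    intro m
    rw [coeff_C]
    split_ifs
    · exact le_rfl
    · rw [map_zero]; exact zero_le
  · have := coeff_le_gauss (u := u) (C a : MvPolynomial I F) 0
    rwa [coeff_C, if_pos rfl] at this

/-- lifting to the valuation ring -/
lemma exists_lift (f : MvPolynomial I F) (hf : gauss u f ≤ 1) :
    ∃ g : MvPolynomial I u.valuationSubring, map (algebraMap u.valuationSubring F) g = f := by
  have h : f ∈ Set.range (map (σ := I) (algebraMap u.valuationSubring F)) := by
    rw [MvPolynomial.mem_range_map_iff_coeffs_subset]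
    intro c hc
    rw [Finset.mem_coe, MvPolynomial.mem_coeffs_iff] at hc
    obtain ⟨m, _, rfl⟩ := hc
    have : f.coeff m ∈ u.valuationSubring := by
      rw [Valuation.mem_valuationSubring_iff]
      exact gauss_le_iff.1 hf m
    exact ⟨⟨_, this⟩, rfl⟩
  exact h

lemma residue_ne_zero {a : u.valuationSubring} (ha : u (a : F) = 1) :
    IsLocalRing.residue u.valuationSubring a ≠ 0 := by
  rw [IsLocalRing.residue_ne_zero_iff_isUnit]
  have ha0 : (a : F) ≠ 0 := by
    intro h
    rw [h, map_zero] at ha
    exact zero_ne_one ha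
  refine IsUnit.of_mul_eq_one ⟨(a : F)⁻¹, ?_⟩ ?_
  · rw [Valuation.mem_valuationSubring_iff, map_inv₀, ha, inv_one]
  · apply Subtype.ext
    exact mul_inv_cancel₀ ha0

lemma eq_one_of_residue_ne_zero {a : u.valuationSubring}
    (ha : IsLocalRing.residue u.valuationSubring a ≠ 0) : u (a : F) = 1 := by
  rw [IsLocalRing.residue_ne_zero_iff_isUnit] at ha
  obtain ⟨b, hb⟩ := ha.exists_right_inv
  have h1 : u (a : F) ≤ 1 := (Valuation.mem_valuationSubring_iff _ _).1 a.2
  have h2 : u (b : F) ≤ 1 := (Valuation.mem_valuationSubring_iff _ _).1 b.2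
  have h3 : u (a : F) * u (b : F) = 1 := by
    rw [← map_mul]
    have : (a : F) * (b : F) = 1 := by
      have := congrArg (Subtype.val) hb
      exact this
    rw [this, map_one]
  apply le_antisymm h1
  calc (1 : ℝ≥0) = u (a : F) * u (b : F) := h3.symm
    _ ≤ u (a : F) * 1 := mul_le_mul_right h2 _
    _ = u (a : F) := mul_one _

lemma gauss_mul_of_one (f g : MvPolynomial I F) (hf : gauss u f = 1) (hg : gauss u g = 1) :
    gauss u (f * g) = 1 := by
  have hf0 : f ≠ 0 := by rintro rfl; simp [gauss] at hf
  have hg0 : g ≠ 0 := by rintro rfl; simp [gauss] at hg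
  obtain ⟨f₁, rfl⟩ := exists_lift f hf.le
  obtain ⟨g₁, rfl⟩ := exists_lift g hg.le
  have key : ∀ h : MvPolynomial I u.valuationSubring,
      gauss u (map (algebraMap u.valuationSubring F) h) = 1 ↔
        map (IsLocalRing.residue u.valuationSubring) h ≠ 0 := by
    intro h
    constructor
    · intro h1
      have hh0 : map (algebraMap u.valuationSubring F) h ≠ 0 := by
        intro h2
        rw [h2] at h1
        simp [gauss] at h1
      obtain ⟨m, hm⟩ := exists_coeff_eq_gauss (u := u) _ hh0
      rw [h1, coeff_map] at hm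
      rw [MvPolynomial.ne_zero_iff]
      refine ⟨m, ?_⟩
      rw [coeff_map]
      exact residue_ne_zero hm
    · intro h1
      rw [MvPolynomial.ne_zero_iff] at h1
      obtain ⟨m, hm⟩ := h1
      rw [coeff_map] at hm
      have h2 := eq_one_of_residue_ne_zero hm
      apply le_antisymm
      · rw [gauss_le_iff]
        intro m'
        rw [coeff_map]
        exact (Valuation.mem_valuationSubring_iff _ _).1 (h.coeff m').2
      · rw [← h2]
        have := coeff_le_gauss (u := u) (map (algebraMap u.valuationSubring F) h) m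
        rwa [coeff_map] at this
  rw [← map_mul, key, map_mul]
  exact mul_ne_zero ((key f₁).1 hf) ((key g₁).1 hg)

lemma gauss_mul (f g : MvPolynomial I F) : gauss u (f * g) = gauss u f * gauss u g := by
  by_cases hf : f = 0
  · subst hf; simp [gauss]
  by_cases hg : g = 0
  · subst hg; simp [gauss]
  have key : ∀ h : MvPolynomial I F, h ≠ 0 → ∃ (a : F) (h₀ : MvPolynomial I F), a ≠ 0 ∧
      h = C a * h₀ ∧ gauss u h₀ = 1 := by
    intro h hh
    obtain ⟨m, hm⟩ := exists_coeff_eq_gauss (u := u) h hh
    have hpos : gauss u h ≠ 0 := by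
      intro h0
      apply hh
      ext m'
      have := coeff_le_gauss (u := u) h m'
      rw [h0, nonpos_iff_eq_zero] at this
      rw [(Valuation.zero_iff u).1 this, coeff_zero]
    have ha : h.coeff m ≠ 0 := by
      intro h0
      rw [h0, map_zero] at hm
      exact hpos hm.symm
    refine ⟨h.coeff m, C (h.coeff m)⁻¹ * h, ha, ?_, ?_⟩
    · rw [← mul_assoc, ← C_mul, mul_inv_cancel₀ ha, C_1, one_mul]
    · rw [gauss_C_mul, map_inv₀, hm, inv_mul_cancel₀ hpos]
  obtain ⟨a, f₀, _, rfl, hf₀⟩ := key f hf
  obtain ⟨b, g₀, _, rfl, hg₀⟩ := key g hg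
  have : C a * f₀ * (C b * g₀) = C (a * b) * (f₀ * g₀) := by
    rw [C_mul]; ring
  rw [this, gauss_C_mul, gauss_C_mul, gauss_C_mul, gauss_mul_of_one f₀ g₀ hf₀ hg₀, hf₀, hg₀,
    map_mul]
  ring

end

theorem exists_abv_mvPolynomial {F : Type*} [Field F] (v : AbsoluteValue F ℝ)
    (hv : ∀ x y, v (x + y) ≤ max (v x) (v y)) (I : Type*) :
    ∃ w : AbsoluteValue (MvPolynomial I F) ℝ, (∀ x y, w (x + y) ≤ max (w x) (w y)) ∧
      ∀ a, w (MvPolynomial.C a) = v a := by
  let u : Valuation F ℝ≥0 :=
    { toFun := fun a => ⟨v a, v.nonneg a⟩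
      map_zero' := by
        apply Subtype.ext
        exact v.map_zero
      map_one' := by
        apply Subtype.ext
        exact v.map_one
      map_mul' := by
        intro a b
        apply Subtype.ext
        exact v.map_mul a b
      map_add_le_max' := by
        intro a b
        rw [← NNReal.coe_le_coe, NNReal.coe_max]
        exact hv a b }
  have hadd : ∀ f g : MvPolynomial I F, gauss u (f + g) ≤ max (gauss u f) (gauss u g) := by
    intro f g
    rw [gauss_le_iff]
    intro m
    rw [coeff_add]
    exact (u.map_add _ _).trans (max_le_max (coeff_le_gauss f m) (coeff_le_gauss g m))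
  refine ⟨{ toFun := fun f => (gauss u f : ℝ)
            map_mul' := fun x y => by rw [gauss_mul]; rfl
            nonneg' := fun x => NNReal.coe_nonneg _
            eq_zero' := fun f => by
              rw [NNReal.coe_eq_zero]
              constructor
              · intro h0
                ext m'
                have := coeff_le_gauss (u := u) f m'
                rw [h0, nonpos_iff_eq_zero] at this
                rw [(Valuation.zero_iff u).1 this, coeff_zero]
              · rintro rfl
                simp [gauss]
            add_le' := fun x y => by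
              have h1 : (gauss u (x + y) : ℝ) ≤ max (gauss u x : ℝ) (gauss u y : ℝ) := by
                rw [← NNReal.coe_max]
                exact_mod_cast hadd x y
              refine h1.trans (max_le ?_ ?_)
              · have := NNReal.coe_nonneg (gauss u y); linarith
              · have := NNReal.coe_nonneg (gauss u x); linarith }, ?_, ?_⟩
  · intro x y
    show (gauss u (x + y) : ℝ) ≤ max (gauss u x : ℝ) (gauss u y : ℝ)
    rw [← NNReal.coe_max]
    exact_mod_cast hadd x y
  · intro a
    show (gauss u (C a) : ℝ) = v a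
    rw [gauss_C]
    rfl

end Pool.Agent.Helper61.Apc
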