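import Pool.Agent.Helper61.AQ.Frac
import Pool.Agent.Helper61.AQ.Gauss
import Pool.Agent.Helper61.AQ.Alg

/-!
Nonarchimedean absolute values extend to arbitrary field extensions.
-/

set_option autoImplicit false

namespace Pool.Agent.Helper61.Apc

theorem exists_abv_extension {F E : Type*} [Field F] [Field E] [Algebra F E]
    (v : AbsoluteValue F ℝ) (hv : ∀ x y, v (x + y) ≤ max (v x) (v y)) :
    ∃ w : AbsoluteValue E ℝ, (∀ x y, w (x + y) ≤ max (w x) (w y)) ∧
      ∀ a, w (algebraMap F E a) = v a := by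
  obtain ⟨ι, x, hx⟩ := exists_isTranscendenceBasis' F E
  let e := hx.1.aevalEquivField
  obtain ⟨w₁, hw₁, hext₁⟩ := exists_abv_mvPolynomial v hv ι
  obtain ⟨w₂, hw₂, hext₂⟩ := exists_abv_fractionField (K := FractionRing (MvPolynomial ι F)) w₁ hw₁
  let w₃ : AbsoluteValue (IntermediateField.adjoin F (Set.range x)) ℝ :=
    w₂.comp (f := (e.symm : IntermediateField.adjoin F (Set.range x) →+*
      FractionRing (MvPolynomial ι F))) e.symm.injective
  have hw₃ : ∀ a b, w₃ (a + b) ≤ max (w₃ a) (w₃ b) := by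
    intro a b
    have := hw₂ (e.symm a) (e.symm b)
    rw [← map_add] at this
    exact this
  have := hx.isAlgebraic_field
  obtain ⟨w₄, hw₄, hext₄⟩ := exists_abv_algebraic (E := E) w₃ hw₃
  refine ⟨w₄, hw₄, fun a => ?_⟩
  have h1 : algebraMap F E a = algebraMap (IntermediateField.adjoin F (Set.range x)) E
      (algebraMap F _ a) := rfl
  rw [h1, hext₄]
  show w₂ (e.symm (algebraMap F _ a)) = v a
  rw [AlgEquiv.commutes, IsScalarTower.algebraMap_apply F (MvPolynomial ι F), hext₂,
    MvPolynomial.algebraMap_eq, hext₁]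

end Pool.Agent.Helper61.Apc
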