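import Pool.Agent.Helper61.AQ.Frac

/-!
Absolute values on the field of rational functions over a finite field: the degree and the
multiplicities of finitely many primes.
-/

set_option autoImplicit false

namespace Pool.Agent.Helper61.Apc

open MvPolynomial

/-- an absolute value from an integer valued degree function -/
theorem exists_abv_of_int {A : Type*} [CommRing A] [IsDomain A] (n : A → ℤ)
    (hmul : ∀ f g, f ≠ 0 → g ≠ 0 → n (f * g) = n f + n g)
    (hadd : ∀ f g, f ≠ 0 → g ≠ 0 → f + g ≠ 0 → n (f + g) ≤ max (n f) (n g)) :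
    ∃ w : AbsoluteValue A ℝ, (∀ x y, w (x + y) ≤ max (w x) (w y)) ∧
      ∀ f, f ≠ 0 → w f = (2 : ℝ) ^ n f := by
  classical
  have hna : ∀ x y : A, (if x + y = 0 then (0 : ℝ) else (2 : ℝ) ^ n (x + y)) ≤
      max (if x = 0 then (0 : ℝ) else (2 : ℝ) ^ n x) (if y = 0 then (0 : ℝ) else (2 : ℝ) ^ n y) := by
    intro x y
    by_cases hx : x = 0
    · subst hx
      rw [zero_add]
      exact le_max_right _ _
    by_cases hy : y = 0
    · subst hy
      rw [add_zero]
      exact le_max_left _ _
    by_cases hxy : x + y = 0
    · rw [if_pos hxy, if_neg hx, if_neg hy]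
      exact le_max_of_le_left (by positivity)
    rw [if_neg hxy, if_neg hx, if_neg hy]
    rcases le_max_iff.1 (hadd x y hx hy hxy) with h | h
    · exact le_max_of_le_left (zpow_le_zpow_right₀ (by norm_num) h)
    · exact le_max_of_le_right (zpow_le_zpow_right₀ (by norm_num) h)
  have hnn : ∀ x : A, (0 : ℝ) ≤ (if x = 0 then (0 : ℝ) else (2 : ℝ) ^ n x) := by
    intro x
    split_ifs
    · exact le_rfl
    · positivity
  refine ⟨{ toFun := fun x => if x = 0 then 0 else (2 : ℝ) ^ n x
            map_mul' := fun x y => ?_
            nonneg' := hnn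
            eq_zero' := fun x => ?_
            add_le' := fun x y => ?_ }, hna, fun f hf => if_neg hf⟩
  · by_cases hx : x = 0
    · simp [hx]
    by_cases hy : y = 0
    · simp [hy]
    rw [if_neg (mul_ne_zero hx hy), if_neg hx, if_neg hy, hmul x y hx hy,
      zpow_add₀ (by norm_num)]
  · show (if x = 0 then (0 : ℝ) else (2 : ℝ) ^ n x) = 0 ↔ x = 0
    split_ifs with h
    · simp [h]
    · constructor
      · intro h2
        have : (0 : ℝ) < (2 : ℝ) ^ n x := by positivity
        linarith
      · exact fun h2 => absurd h2 h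
  · refine (hna x y).trans (max_le ?_ ?_)
    · have := hnn y; linarith
    · have := hnn x; linarith

/-- polynomials of bounded degree in finitely many variables over a finite field -/
theorem finite_totalDegree_le (σ F : Type*) [Finite σ] [Field F] [Finite F] (D : ℕ) :
    {f : MvPolynomial σ F | f.totalDegree ≤ D}.Finite := by
  classical
  have := Fintype.ofFinite σ
  have := Fintype.ofFinite F
  let Φ : ((σ → Fin (D + 1)) → F) → MvPolynomial σ F := fun g =>
    ∑ e : σ → Fin (D + 1), monomial (Finsupp.equivFunOnFinite.symm fun i => (e i : ℕ)) (g e)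
  refine (Set.finite_range Φ).subset ?_
  intro f hf
  have hfD : f.totalDegree ≤ D := hf
  refine ⟨fun e => f.coeff (Finsupp.equivFunOnFinite.symm fun i => (e i : ℕ)), ?_⟩
  ext m
  simp only [Φ, coeff_sum, coeff_monomial]
  by_cases hm : ∀ i, m i ≤ D
  · rw [Finset.sum_eq_single (fun i => (⟨m i, by have := hm i; omega⟩ : Fin (D + 1)))]
    · have h1 : (Finsupp.equivFunOnFinite.symm fun i => m i) = m := by
        ext i; simp
      simp only [h1, if_true]
    · intro e _ he
      rw [if_neg]
      intro h
      apply he
      funext i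
      apply Fin.ext
      show (e i : ℕ) = m i
      rw [← h]
      simp
    · intro h
      exact absurd (Finset.mem_univ _) h
  · have h0 : f.coeff m = 0 := by
      by_contra h
      apply hm
      intro i
      have h1 : m ∈ f.support := by rwa [mem_support_iff]
      have h2 := le_totalDegree h1
      have h3 : m i ≤ m.sum fun _ e => e := by
        by_cases hi : m i = 0
        · omega
        · exact Finset.single_le_sum (f := fun i => m i) (fun _ _ => Nat.zero_le _)
            (Finsupp.mem_support_iff.2 hi)
      exact h3.trans (h2.trans hfD)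
    rw [h0]
    apply Finset.sum_eq_zero
    intro e _
    rw [if_neg]
    intro h
    apply hm
    intro i
    rw [← h]
    have := (e i).2
    simp only [Finsupp.equivFunOnFinite_symm_apply_apply]
    omega

theorem exists_places_ufd {A L : Type*} [CommRing A] [IsDomain A] [UniqueFactorizationMonoid A]
    [Field L] [Algebra A L] [IsFractionRing A L] (deg : A → ℕ)
    (hdegmul : ∀ f g : A, f ≠ 0 → g ≠ 0 → deg (f * g) = deg f + deg g)
    (hdegadd : ∀ f g : A, deg (f + g) ≤ max (deg f) (deg g))
    (hdegfin : ∀ D : ℕ, {f : A | deg f ≤ D}.Finite) (hdeg0 : deg 0 = 0)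
    (N : A) (hN : N ≠ 0) :
    ∃ (m : ℕ) (u : Fin m → AbsoluteValue L ℝ), (∀ i x y, u i (x + y) ≤ max (u i x) (u i y)) ∧
      ∀ B : ℝ, {c : L | (∃ (j : ℕ) (a : A),
        c * algebraMap A L N ^ j = algebraMap A L a) ∧
        ∀ i, u i c ≤ B}.Finite := by
  classical
  -- the degree
  obtain ⟨w₀, hw₀, hdeg⟩ := exists_abv_of_int (A := A) (fun f => (deg f : ℤ))
    (by
      intro f g hf hg
      rw [hdegmul f g hf hg]
      push_cast
      ring)
    (by
      intro f g _ _ _
      exact_mod_cast hdegadd f g)
  obtain ⟨u₀, hu₀, hext₀⟩ := exists_abv_fractionField (K := L) w₀ hw₀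
  -- the primes
  have hprime : ∀ q : {q // q ∈ (UniqueFactorizationMonoid.factors N).toFinset}, Prime (q : A) :=
    fun q => UniqueFactorizationMonoid.prime_of_factor _ (Multiset.mem_toFinset.1 q.2)
  have hpl : ∀ q : {q // q ∈ (UniqueFactorizationMonoid.factors N).toFinset},
      ∃ u : AbsoluteValue L ℝ, (∀ x y, u (x + y) ≤ max (u x) (u y)) ∧
        ∀ f : A, f ≠ 0 → u (algebraMap A L f) = (2 : ℝ) ^ (-(multiplicity (q : A) f : ℤ)) := by
    intro q
    have hfin : ∀ f : A, f ≠ 0 → FiniteMultiplicity (q : A) f := fun f hf =>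
      FiniteMultiplicity.of_prime_left (hprime q) hf
    obtain ⟨w, hw, hwf⟩ := exists_abv_of_int (A := A) (fun f => -(multiplicity (q : A) f : ℤ))
      (by
        intro f g hf hg
        rw [multiplicity_mul (hprime q) (hfin _ (mul_ne_zero hf hg))]
        push_cast
        ring)
      (by
        intro f g hf hg hfg
        have h1 := min_le_emultiplicity_add (p := (q : A)) (a := f) (b := g)
        rw [(hfin f hf).emultiplicity_eq_multiplicity, (hfin g hg).emultiplicity_eq_multiplicity,
          (hfin _ hfg).emultiplicity_eq_multiplicity] at h1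
        rcases min_le_iff.1 h1 with h2 | h2
        · rw [Nat.cast_le] at h2
          omega
        · rw [Nat.cast_le] at h2
          omega)
    obtain ⟨u, hu, hext⟩ := exists_abv_fractionField (K := L) w hw
    exact ⟨u, hu, fun f hf => by rw [hext, hwf f hf]⟩
  choose uq huq hextq using hpl
  set ι := Option {q // q ∈ (UniqueFactorizationMonoid.factors N).toFinset} with hι
  let U : ι → AbsoluteValue L ℝ := fun i => match i with
    | none => u₀
    | some q => uq q
  have e := Fintype.equivFin ι
  refine ⟨Fintype.card ι, fun i => U (e.symm i), ?_, ?_⟩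
  · intro i x y
    show U (e.symm i) (x + y) ≤ max (U (e.symm i) x) (U (e.symm i) y)
    rcases e.symm i with _ | q
    · exact hu₀ x y
    · exact huq q x y
  · intro B
    obtain ⟨b, hb⟩ := pow_unbounded_of_one_lt B (by norm_num : (1 : ℝ) < 2)
    have hNL : algebraMap A L N ≠ 0 := by
      rw [ne_eq, IsFractionRing.to_map_eq_zero_iff]
      exact hN
    -- numerators
    have hfin : ((fun a : A => algebraMap A L a / algebraMap A L N ^ b) ''
        {a : A | deg a ≤ b + b * deg N}).Finite :=
      (hdegfin (b + b * deg N)).image _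
    refine hfin.subset ?_
    rintro c ⟨⟨j, a, hja⟩, hc⟩
    have hU : ∀ i : ι, U i c ≤ B := by
      intro i
      have := hc (e i)
      simpa using this
    by_cases ha : a = 0
    · refine ⟨0, by show deg 0 ≤ _; rw [hdeg0]; exact Nat.zero_le _, ?_⟩
      have : c = 0 := by
        rw [ha, map_zero] at hja
        rcases mul_eq_zero.1 hja with h | h
        · exact h
        · exact absurd h (pow_ne_zero _ hNL)
      show algebraMap A L 0 / algebraMap A L N ^ b = c
      rw [this, map_zero, zero_div]
    have hdvd : N ^ j ∣ a * N ^ b := by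
      rw [UniqueFactorizationMonoid.dvd_iff_emultiplicity_le (pow_ne_zero _ hN)]
      intro p hp
      by_cases hpN : p ∣ N
      · obtain ⟨q, hq, hpq⟩ := UniqueFactorizationMonoid.exists_mem_factors_of_dvd hN
          hp.irreducible hpN
        have hqP : q ∈ (UniqueFactorizationMonoid.factors N).toFinset :=
          Multiset.mem_toFinset.2 hq
        have hq' := hprime ⟨q, hqP⟩
        have hfin' : ∀ f : A, f ≠ 0 → FiniteMultiplicity q f := fun f hf =>
          FiniteMultiplicity.of_prime_left hq' hf
        rw [emultiplicity_eq_of_associated_left hpq.symm,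
          emultiplicity_eq_of_associated_left hpq.symm,
          (hfin' _ (pow_ne_zero _ hN)).emultiplicity_eq_multiplicity,
          (hfin' _ (mul_ne_zero ha (pow_ne_zero _ hN))).emultiplicity_eq_multiplicity]
        have h1 := hextq ⟨q, hqP⟩ a ha
        have h2 := hextq ⟨q, hqP⟩ N hN
        have h3 := hU (some ⟨q, hqP⟩)
        have h4 : uq ⟨q, hqP⟩ c * uq ⟨q, hqP⟩ (algebraMap A L N) ^ j =
            uq ⟨q, hqP⟩ (algebraMap A L a) := by
          rw [← map_pow, ← map_mul, hja]
        have h5 : uq ⟨q, hqP⟩ c ≤ 2 ^ b := h3.trans hb.le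
        rw [h1, h2] at h4
        have h6 : (2 : ℝ) ^ (-(multiplicity q a : ℤ)) ≤
            (2 : ℝ) ^ ((b : ℤ) - j * multiplicity q N) := by
          rw [← h4, ← zpow_natCast ((2 : ℝ) ^ (-(multiplicity q N : ℤ))) j, ← zpow_mul,
            sub_eq_add_neg, zpow_add₀ (by norm_num)]
          refine mul_le_mul (by exact_mod_cast h5) (le_of_eq ?_) (by positivity) (by positivity)
          congr 1
          ring
        rw [zpow_le_zpow_iff_right₀ (by norm_num)] at h6
        have h7 : 1 ≤ multiplicity q N := by
          apply FiniteMultiplicity.le_multiplicity_of_pow_dvd (hfin' _ hN)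
          rw [pow_one]
          exact UniqueFactorizationMonoid.dvd_of_mem_factors hq
        have h8 : multiplicity q (N ^ j) = j * multiplicity q N :=
          FiniteMultiplicity.multiplicity_pow hq' (hfin' _ hN)
        have h9 : multiplicity q (a * N ^ b) = multiplicity q a + b * multiplicity q N := by
          rw [multiplicity_mul hq' (hfin' _ (mul_ne_zero ha (pow_ne_zero _ hN))),
            FiniteMultiplicity.multiplicity_pow hq' (hfin' _ hN)]
        rw [h8, h9]
        have h10 : j * multiplicity q N ≤ multiplicity q a + b := by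
          zify
          linarith
        have h11 : b ≤ b * multiplicity q N := Nat.le_mul_of_pos_right b h7
        exact_mod_cast h10.trans (by omega)
      · have : emultiplicity p (N ^ j) = 0 := by
          rw [emultiplicity_eq_zero]
          intro h
          exact hpN (hp.dvd_of_dvd_pow h)
        rw [this]
        exact zero_le
    obtain ⟨a', ha'⟩ := hdvd
    have ha'0 : a' ≠ 0 := by
      rintro rfl
      rw [mul_zero] at ha'
      exact (mul_ne_zero ha (pow_ne_zero _ hN)) ha'
    have hca' : c * algebraMap A L N ^ b = algebraMap A L a' := by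
      have h1 : c * algebraMap A L N ^ b * algebraMap A L N ^ j =
          algebraMap A L a' * algebraMap A L N ^ j := by
        rw [mul_right_comm, hja, ← map_pow, ← map_pow, ← map_mul, ← map_mul, ha', mul_comm a']
      exact mul_right_cancel₀ (pow_ne_zero _ hNL) h1
    refine ⟨a', ?_, ?_⟩
    · show deg a' ≤ b + b * deg N
      have h3 := hU none
      have h5 : u₀ c ≤ 2 ^ b := h3.trans hb.le
      have h4 : u₀ c * u₀ (algebraMap A L N) ^ b = u₀ (algebraMap A L a') := by
        rw [← map_pow, ← map_mul, hca']
      rw [hext₀, hext₀, hdeg N hN, hdeg a' ha'0] at h4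
      have h6 : (2 : ℝ) ^ (deg a' : ℤ) ≤ (2 : ℝ) ^ ((b : ℤ) + deg N * b) := by
        rw [← h4, ← zpow_natCast ((2 : ℝ) ^ (deg N : ℤ)) b, ← zpow_mul,
          zpow_add₀ (by norm_num)]
        exact mul_le_mul_of_nonneg_right (by exact_mod_cast h5) (by positivity)
      rw [zpow_le_zpow_iff_right₀ (by norm_num)] at h6
      have h7 : deg a' ≤ b + deg N * b := by exact_mod_cast h6
      rw [mul_comm b]
      exact h7
    · show algebraMap A L a' / algebraMap A L N ^ b = c
      rw [← hca', mul_div_assoc, div_self (pow_ne_zero _ hNL), mul_one]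

theorem exists_places_base {σ F L : Type*} [Finite σ] [Field F] [Finite F] [Field L]
    [Algebra (MvPolynomial σ F) L] [IsFractionRing (MvPolynomial σ F) L]
    (N : MvPolynomial σ F) (hN : N ≠ 0) :
    ∃ (m : ℕ) (u : Fin m → AbsoluteValue L ℝ), (∀ i x y, u i (x + y) ≤ max (u i x) (u i y)) ∧
      ∀ B : ℝ, {c : L | (∃ (j : ℕ) (a : MvPolynomial σ F),
        c * algebraMap (MvPolynomial σ F) L N ^ j = algebraMap (MvPolynomial σ F) L a) ∧
        ∀ i, u i c ≤ B}.Finite :=
  exists_places_ufd (fun f => f.totalDegree)
    (fun _ _ hf hg => totalDegree_mul_of_isDomain hf hg)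
    (fun f g => totalDegree_add f g) (fun D => finite_totalDegree_le σ F D) totalDegree_zero N hN

end Pool.Agent.Helper61.Apc
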