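import Mathlib

/-!
Nonarchimedean absolute values extend to the field of fractions.
-/

set_option autoImplicit false

namespace Pool.Agent.Helper61.Apc

open NNReal

theorem exists_abv_fractionField {A K : Type*} [CommRing A] [IsDomain A] [Field K] [Algebra A K]
    [IsFractionRing A K] (v : AbsoluteValue A ℝ) (hv : ∀ x y, v (x + y) ≤ max (v x) (v y)) :
    ∃ w : AbsoluteValue K ℝ, (∀ x y, w (x + y) ≤ max (w x) (w y)) ∧
      ∀ a, w (algebraMap A K a) = v a := by
  let u : Valuation A ℝ≥0 :=
    { toFun := fun a => ⟨v a, v.nonneg a⟩
      map_zero' := by
        apply Subtype.ext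
        exact v.map_zero
      map_one' := by
        apply Subtype.ext
        exact v.map_one
      map_mul' := by
        intro a b
        apply Subtype.ext
        exact v.map_mul a b
      map_add_le_max' := by
        intro a b
        rw [← NNReal.coe_le_coe, NNReal.coe_max]
        exact hv a b }
  have hu : ∀ a, ((u a : ℝ≥0) : ℝ) = v a := fun a => rfl
  have hS : nonZeroDivisors A ≤ u.supp.primeCompl := by
    intro a ha
    have ha0 : a ≠ 0 := nonZeroDivisors.ne_zero ha
    show a ∉ u.supp
    rw [Valuation.mem_supp_iff]
    intro h
    apply ha0
    rw [← v.eq_zero, ← hu, h]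
    rfl
  let u' : Valuation K ℝ≥0 := u.extendToLocalization hS K
  have hu' : ∀ a, u' (algebraMap A K a) = u a := fun a =>
    Valuation.extendToLocalization_apply_map_apply u hS K a
  refine ⟨{ toFun := fun x => (u' x : ℝ)
            map_mul' := fun x y => by rw [map_mul]; rfl
            nonneg' := fun x => NNReal.coe_nonneg _
            eq_zero' := fun x => by
              rw [NNReal.coe_eq_zero]
              exact Valuation.zero_iff u'
            add_le' := fun x y => by
              have h := u'.map_add x y
              have h1 : (u' (x + y) : ℝ) ≤ max (u' x : ℝ) (u' y : ℝ) := by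
                rw [← NNReal.coe_max]
                exact_mod_cast h
              refine h1.trans (max_le ?_ ?_)
              · have := NNReal.coe_nonneg (u' y); linarith
              · have := NNReal.coe_nonneg (u' x); linarith }, ?_, ?_⟩
  · intro x y
    show (u' (x + y) : ℝ) ≤ max (u' x : ℝ) (u' y : ℝ)
    rw [← NNReal.coe_max]
    exact_mod_cast u'.map_add x y
  · intro a
    show (u' (algebraMap A K a) : ℝ) = v a
    rw [hu', hu]

end Pool.Agent.Helper61.Apc
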